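import Pool.Agent.R379.DL.Fin
import Pool.Agent.R379.DL.K2
import Pool.Agent.R379.DL.T1
import Pool.Agent.R379.DL.T2
import Pool.Agent.R379.DL.A
import Pool.Agent.R379.DL.K0
import Pool.Agent.R379.DL.K5
import Pool.Agent.R379.DL.K4
import Pool.Agent.R379.DL.K3
import Pool.Agent.R379.DL.C1
import Pool.Agent.R379.DL.C2
import Pool.Agent.R379.DL.C3
import Pool.Agent.R379.DL.D
import Pool.Agent.R379.DL.E0
import Pool.Agent.R379.DL.E1
import Pool.Agent.R379.DL.X23
import Pool.Agent.R379.DL.X24
import Pool.Agent.R379.DL.X25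
import Pool.Agent.R379.DL.X33
import Pool.Agent.R379.DL.X32
import Pool.Agent.R379.DL.I1
import Pool.Agent.R379.DL.I2
import Pool.Agent.R379.DL.I3
import Pool.Agent.R379.DL.L1
import Pool.Agent.R379.DL.L2a
import Pool.Agent.R379.DL.L2b
import Pool.Agent.R379.DL.L2d
import Pool.Agent.R379.DL.L2f

set_option autoImplicit false

namespace Pool.Agent.Results.MP_5a645a_al.LeastThree

open Equiv Pool.Agent.R379.DL

/-- The least `c` such that every solvable permutation group `G` on a finite set `Ω` has a
2-colouring `γ` of `Ω` whose colour-preserving subgroup `cst G γ` has derived length at most `c`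
is `3`. -/
theorem result : IsLeast {c : ℕ | ∀ (Ω : Type) [Finite Ω] (G : Subgroup (Perm Ω)),
    Group.IsSolvable G → ∃ γ : Ω → Bool, derivedSeries (cst G γ) c = ⊥} 3 := by
  have hperm := pc_perm
  have hparts := pc_parts hperm
  have hpath := pc_path
  have hcf := pc_coneFix
  have hcd := pc_coneDl hcf
  have htl := pc_tl hparts
  have hinv := pc_inv
  have hrob := pc_robc
  have hmk := pc_mkGood htl hrob hinv
  have h22 := pc_X22 hperm
  have h23 := pc_X23 hperm hparts htl hinv
  have h24 := pc_X24 htl hinv h23 hrob hcd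
  have hK2 := pc_K2 h22 h23 h24 (pc_X25 hmk) (pc_X32 htl hinv) (pc_X33 hmk) (pc_X52 hmk)
    (pc_coneGood hcf hcd) pc_lineTop pc_lineGood
  have hup := pc_upper hperm (pc_ind hperm pc_aff hK2 (pc_K3 hpath hparts pc_line) (pc_K4 hpath)
    (pc_K5 hpath) pc_step)
  have hlow := pc_low (pc_lowN pc_low1 (pc_low2 pc_swap) pc_low3 (pc_low4 pc_swap))
  exact isLeast_three hup (pc_solv hperm) hlow

end Pool.Agent.Results.MP_5a645a_al.LeastThree
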